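import Mathlib
import Pool.Agent.H410R2.EDIface

/-! # Functions of the prime signature: gadgets and transplants -/

set_option autoImplicit false

open Finset

namespace Pool.Agent.Y973.ED

variable {G : Type} [CommGroup G]

/-- `f` is multiplicative on coprime arguments and `f (p ^ a)` does not depend on the prime `p`. -/
structure Sg (f : ℕ → G) : Prop where
  mul : ∀ m n : ℕ, 0 < m → 0 < n → Nat.Coprime m n → f (m * n) = f m * f n
  pp : ∀ p q a : ℕ, p.Prime → q.Prime → f (p ^ a) = f (q ^ a)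

theorem Sg.one {f : ℕ → G} (hf : Sg f) : f 1 = 1 := by
  have h := hf.mul 1 1 one_pos one_pos (Nat.coprime_one_left 1)
  rw [one_mul] at h
  exact (left_eq_mul.mp h)

/-- `x` is the quotient `f A * f B / f (A * B)` for some `A`, `B` with the same, arbitrarily large,
prime factors. -/
def Gd (f : ℕ → G) (x : G) : Prop := ∀ B0 : ℕ, ∃ A B : ℕ, 0 < A ∧ 0 < B ∧
  (∀ p : ℕ, p.Prime → (p ∣ A ↔ p ∣ B)) ∧ (∀ p : ℕ, p.Prime → p ∣ A → B0 < p) ∧
  f A * f B = x * f (A * B)

theorem coprime_of_primes {a b : ℕ} (h : ∀ p : ℕ, p.Prime → p ∣ a → p ∣ b → False) :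
    Nat.Coprime a b :=
  Nat.coprime_of_dvd fun p hp h1 h2 => h p hp h1 h2

theorem gd_one {f : ℕ → G} (hf : Sg f) : Gd f 1 := by
  intro B0
  refine ⟨1, 1, one_pos, one_pos, fun p hp => Iff.rfl, ?_, ?_⟩
  · intro p hp h
    exact absurd (Nat.dvd_one.mp h) hp.one_lt.ne'
  · rw [one_mul, hf.one, one_mul]

theorem gd_mul {f : ℕ → G} (hf : Sg f) {x y : G} (hx : Gd f x) (hy : Gd f y) : Gd f (x * y) := by
  intro B0
  obtain ⟨A1, B1, hA1, hB1, hs1, hb1, he1⟩ := hx B0
  obtain ⟨A2, B2, hA2, hB2, hs2, hb2, he2⟩ := hy (B0 + A1)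
  have hno : ∀ p : ℕ, p.Prime → p ∣ A1 → p ∣ A2 → False := by
    intro p hp h1 h2
    have := hb2 p hp h2
    have := Nat.le_of_dvd hA1 h1
    omega
  have cAA : Nat.Coprime A1 A2 := coprime_of_primes hno
  have cBB : Nat.Coprime B1 B2 := coprime_of_primes fun p hp h1 h2 =>
    hno p hp ((hs1 p hp).mpr h1) ((hs2 p hp).mpr h2)
  have cAB : Nat.Coprime A1 B2 := coprime_of_primes fun p hp h1 h2 =>
    hno p hp h1 ((hs2 p hp).mpr h2)
  have cBA : Nat.Coprime B1 A2 := coprime_of_primes fun p hp h1 h2 =>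
    hno p hp ((hs1 p hp).mpr h1) h2
  refine ⟨A1 * A2, B1 * B2, Nat.mul_pos hA1 hA2, Nat.mul_pos hB1 hB2, ?_, ?_, ?_⟩
  · intro p hp
    rw [hp.dvd_mul, hp.dvd_mul, hs1 p hp, hs2 p hp]
  · intro p hp h
    rcases (hp.dvd_mul).mp h with h | h
    · exact hb1 p hp h
    · have := hb2 p hp h; omega
  · rw [hf.mul A1 A2 hA1 hA2 cAA, hf.mul B1 B2 hB1 hB2 cBB,
      show A1 * A2 * (B1 * B2) = (A1 * B1) * (A2 * B2) by ring,
      hf.mul (A1 * B1) (A2 * B2) (Nat.mul_pos hA1 hB1) (Nat.mul_pos hA2 hB2)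
        (Nat.Coprime.mul_left (Nat.Coprime.mul_right cAA cAB) (Nat.Coprime.mul_right cBA cBB))]
    calc f A1 * f A2 * (f B1 * f B2) = (f A1 * f B1) * (f A2 * f B2) := by
          rw [mul_mul_mul_comm]
      _ = x * y * (f (A1 * B1) * f (A2 * B2)) := by
          rw [he1, he2, mul_mul_mul_comm]

theorem gd_pow {f : ℕ → G} (hf : Sg f) {x : G} (hx : Gd f x) (n : ℕ) : Gd f (x ^ n) := by
  induction n with
  | zero => rw [pow_zero]; exact gd_one hf
  | succ n ih => rw [pow_succ]; exact gd_mul hf ih hx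

theorem gd_basic {f : ℕ → G} (hf : Sg f) (c : ℕ) (hc : 1 ≤ c) :
    Gd f (f (2 ^ 1) * f (2 ^ c) * (f (2 ^ (c + 1)))⁻¹) := by
  intro B0
  obtain ⟨q, hq, hqp⟩ := Nat.exists_infinite_primes (B0 + 1)
  refine ⟨q, q ^ c, hqp.pos, Nat.pow_pos hqp.pos, ?_, ?_, ?_⟩
  · intro p hp
    constructor
    · intro h; exact h.trans (dvd_pow_self q (by omega))
    · intro h; exact hp.dvd_of_dvd_pow h
  · intro p hp h
    rw [(Nat.prime_dvd_prime_iff_eq hp hqp).mp h]
    omega
  · have h1 : f q = f (2 ^ 1) := by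
      have := hf.pp q 2 1 hqp Nat.prime_two
      rwa [pow_one] at this
    rw [h1, hf.pp q 2 c hqp Nat.prime_two, show q * q ^ c = q ^ (c + 1) by ring,
      hf.pp q 2 (c + 1) hqp Nat.prime_two, inv_mul_cancel_right]

theorem gd_expo {f : ℕ → G} (hf : Sg f) (a : ℕ) (ha : 1 ≤ a) :
    Gd f ((f (2 ^ 1)) ^ a * (f (2 ^ a))⁻¹) := by
  induction a, ha using Nat.le_induction with
  | base => rw [pow_one (f (2 ^ 1)), mul_inv_cancel]; exact gd_one hf
  | succ n hn ih =>
    have h := gd_mul hf ih (gd_basic hf n hn)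
    have e : f (2 ^ 1) ^ n * (f (2 ^ n))⁻¹ * (f (2 ^ 1) * f (2 ^ n) * (f (2 ^ (n + 1)))⁻¹)
        = f (2 ^ 1) ^ (n + 1) * (f (2 ^ (n + 1)))⁻¹ := by
      rw [pow_succ (f (2 ^ 1)) n]
      calc f (2 ^ 1) ^ n * (f (2 ^ n))⁻¹ * (f (2 ^ 1) * f (2 ^ n) * (f (2 ^ (n + 1)))⁻¹)
          = f (2 ^ 1) ^ n * f (2 ^ 1) * (f (2 ^ (n + 1)))⁻¹ * ((f (2 ^ n))⁻¹ * f (2 ^ n)) := by
            simp only [mul_assoc, mul_comm, mul_left_comm]
        _ = _ := by rw [inv_mul_cancel, mul_one]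
    rwa [e] at h

theorem gd_number {f : ℕ → G} (hf : Sg f) (u : ℕ) (hu : 0 < u) :
    Gd f ((f (2 ^ 1)) ^ (ArithmeticFunction.cardFactors u) * (f u)⁻¹) := by
  induction u using Nat.recOnPosPrimePosCoprime with
  | prime_pow p n hp hn =>
    rw [ArithmeticFunction.cardFactors_apply_prime_pow hp, hf.pp p 2 n hp Nat.prime_two]
    exact gd_expo hf n hn
  | zero => omega
  | one =>
    rw [ArithmeticFunction.cardFactors_one, pow_zero, hf.one, one_mul, inv_one]
    exact gd_one hf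
  | coprime a b ha hb hab iha ihb =>
    have h := gd_mul hf (iha (by omega)) (ihb (by omega))
    rw [ArithmeticFunction.cardFactors_mul (by omega) (by omega),
      hf.mul a b (by omega) (by omega) hab, pow_add, mul_inv]
    rwa [mul_mul_mul_comm] at h

/-- the gadgets used in the construction -/
theorem gd_main {f : ℕ → G} (hf : Sg f) (hH : ∃ u v : ℕ, 0 < u ∧ 0 < v ∧ f u = f v ∧
    ArithmeticFunction.cardFactors u = ArithmeticFunction.cardFactors v + 1) (R : ℕ) :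
    ∃ γ : G, ∀ ρ ≤ R, Gd f (γ * (f (2 ^ 1)) ^ ρ) := by
  obtain ⟨u, v, hu, hv, he, hO⟩ := hH
  have h1 := gd_number hf u hu
  have h2 := gd_number hf v hv
  refine ⟨((f (2 ^ 1)) ^ (ArithmeticFunction.cardFactors v) * (f v)⁻¹) ^ R, ?_⟩
  intro ρ hρ
  have h3 := gd_mul hf (gd_pow hf h2 (R - ρ)) (gd_pow hf h1 ρ)
  have e : (f (2 ^ 1) ^ (ArithmeticFunction.cardFactors u) * (f u)⁻¹)
      = (f (2 ^ 1) ^ (ArithmeticFunction.cardFactors v) * (f v)⁻¹) * f (2 ^ 1) := by
    rw [hO, he, pow_succ, mul_assoc, mul_comm (f (2 ^ 1)) (f v)⁻¹, mul_assoc]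
  rw [e, mul_pow _ (f (2 ^ 1)) ρ, ← mul_assoc, ← pow_add, Nat.sub_add_cancel hρ] at h3
  exact h3

/-- moving a number to large primes -/
theorem transplant {f : ℕ → G} (hf : Sg f) (w : ℕ) (hw : 0 < w) :
    ∀ B0 : ℕ, ∃ w' : ℕ, 0 < w' ∧ (∀ p : ℕ, p.Prime → p ∣ w' → B0 < p) ∧ f w' = f w := by
  induction w using Nat.recOnPosPrimePosCoprime with
  | prime_pow p n hp hn =>
    intro B0
    obtain ⟨q, hq, hqp⟩ := Nat.exists_infinite_primes (B0 + 1)
    refine ⟨q ^ n, Nat.pow_pos hqp.pos, ?_, hf.pp q p n hqp hp⟩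
    intro r hr h
    rw [(Nat.prime_dvd_prime_iff_eq hr hqp).mp (hr.dvd_of_dvd_pow h)]
    omega
  | zero => omega
  | one =>
    intro B0
    exact ⟨1, one_pos, fun p hp h => absurd (Nat.dvd_one.mp h) hp.one_lt.ne', rfl⟩
  | coprime a b ha hb hab iha ihb =>
    intro B0
    obtain ⟨w1, hw1, hb1, he1⟩ := iha (by omega) B0
    obtain ⟨w2, hw2, hb2, he2⟩ := ihb (by omega) (B0 + w1)
    have hc : Nat.Coprime w1 w2 := coprime_of_primes fun p hp h1 h2 => by
      have := hb2 p hp h2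
      have := Nat.le_of_dvd hw1 h1
      omega
    refine ⟨w1 * w2, Nat.mul_pos hw1 hw2, ?_, ?_⟩
    · intro p hp h
      rcases (hp.dvd_mul).mp h with h | h
      · exact hb1 p hp h
      · have := hb2 p hp h; omega
    · rw [hf.mul w1 w2 hw1 hw2 hc, hf.mul a b (by omega) (by omega) hab, he1, he2]

/-- a number with large primes and the product of given values -/
theorem transplant_prod {f : ℕ → G} (hf : Sg f) {ι : Type*} [DecidableEq ι] (S : Finset ι)
    (x : ι → ℕ) (hx : ∀ i ∈ S, 0 < x i) :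
    ∀ B0 : ℕ, ∃ w : ℕ, 0 < w ∧ (∀ p : ℕ, p.Prime → p ∣ w → B0 < p) ∧
      f w = ∏ i ∈ S, f (x i) := by
  induction S using Finset.induction_on with
  | empty =>
    intro B0
    refine ⟨1, one_pos, fun p hp h => absurd (Nat.dvd_one.mp h) hp.one_lt.ne', ?_⟩
    rw [hf.one, Finset.prod_empty]
  | insert i S hi ih =>
    intro B0
    obtain ⟨w1, hw1, hb1, he1⟩ := ih (fun j hj => hx j (Finset.mem_insert_of_mem hj)) B0
    obtain ⟨w2, hw2, hb2, he2⟩ := transplant hf (x i) (hx i (Finset.mem_insert_self _ _)) (B0 + w1)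
    have hc : Nat.Coprime w2 w1 := coprime_of_primes fun p hp h2 h1 => by
      have := hb2 p hp h2
      have := Nat.le_of_dvd hw1 h1
      omega
    refine ⟨w2 * w1, Nat.mul_pos hw2 hw1, ?_, ?_⟩
    · intro p hp h
      rcases (hp.dvd_mul).mp h with h | h
      · have := hb2 p hp h; omega
      · exact hb1 p hp h
    · rw [hf.mul w2 w1 hw2 hw1 hc, Finset.prod_insert hi, he1, he2]

/-- choosing numbers with pairwise disjoint large supports -/
theorem choose_coprime {ι : Type*} [DecidableEq ι] (S : Finset ι) (P : ι → ℕ → Prop) (B0 : ℕ)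
    (h : ∀ i ∈ S, ∀ B1 : ℕ, ∃ w : ℕ, 0 < w ∧ (∀ p : ℕ, p.Prime → p ∣ w → B1 < p) ∧ P i w) :
    ∃ w : ι → ℕ, (∀ i ∈ S, 0 < w i ∧ (∀ p : ℕ, p.Prime → p ∣ w i → B0 < p) ∧ P i (w i)) ∧
      ∀ i ∈ S, ∀ j ∈ S, i ≠ j → Nat.Coprime (w i) (w j) := by
  induction S using Finset.induction_on with
  | empty => exact ⟨fun _ => 1, by simp, by simp⟩
  | insert a S ha ih =>
    obtain ⟨w, hw1, hw2⟩ := ih (fun j hj => h j (Finset.mem_insert_of_mem hj))
    obtain ⟨z, hz0, hz1, hz2⟩ := h a (Finset.mem_insert_self _ _) (B0 + ∑ j ∈ S, w j)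
    have hne : ∀ j ∈ S, j ≠ a := fun j hj hja => ha (hja ▸ hj)
    refine ⟨fun j => if j = a then z else w j, ?_, ?_⟩
    · intro i hi
      rcases Finset.mem_insert.mp hi with rfl | hi
      · simp only [if_true]
        exact ⟨hz0, fun p hp hd => by have := hz1 p hp hd; omega, hz2⟩
      · simp only [if_neg (hne i hi)]
        exact hw1 i hi
    · have hcz : ∀ j ∈ S, Nat.Coprime z (w j) := by
        intro j hj
        refine coprime_of_primes fun p hp h1 h2 => ?_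
        have e1 := hz1 p hp h1
        have e2 := Nat.le_of_dvd (hw1 j hj).1 h2
        have e3 : w j ≤ ∑ j ∈ S, w j := Finset.single_le_sum (fun _ _ => Nat.zero_le _) hj
        omega
      intro i hi j hj hij
      rcases Finset.mem_insert.mp hi with rfl | hi'
      · rcases Finset.mem_insert.mp hj with rfl | hj'
        · exact absurd rfl hij
        · simp only [if_true, if_neg (hne j hj')]
          exact hcz j hj'
      · rcases Finset.mem_insert.mp hj with rfl | hj'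
        · simp only [if_true, if_neg (hne i hi')]
          exact (hcz i hi').symm
        · simp only [if_neg (hne i hi'), if_neg (hne j hj')]
          exact hw2 i hi' j hj' hij

end Pool.Agent.Y973.ED
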