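import Mathlib
import Pool.Agent.H658R2.ED_T2
import Pool.Agent.Y973.ED.Gad

/-! # The arithmetic design for functions of the prime signature

Adaptation of `Pool.Agent.H658R2.ED_T2`: the prime powers are replaced by gadgets. -/

set_option autoImplicit false

open Finset

namespace Pool.Agent.Y973.ED

open Pool.Agent.H410R2.ED (Ln Pt pt)
open Pool.Agent.H658R2.ED (exists_crt_add E E_lt E_inj Sh Po key_indep)

variable {G : Type} [CommGroup G]

/-- the local lemma -/
theorem local_f {f : ℕ → G} (hf : Sg f) {A B h'' Y' : ℕ} {x : G} (hA : 0 < A) (hB : 0 < B)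
    (hh : 0 < h'') (hY : 0 < Y') (hs : ∀ p : ℕ, p.Prime → (p ∣ A ↔ p ∣ B))
    (hx : f A * f B = x * f (A * B)) (h1 : Nat.Coprime A h'') (h2 : Nat.Coprime B Y')
    (h3 : Nat.Coprime h'' Y') :
    f (A * h'') * f (B * Y') = x * f (A * h'' * (B * Y')) := by
  have h4 : Nat.Coprime B h'' := coprime_of_primes fun p hp ha hb =>
    Nat.not_coprime_of_dvd_of_dvd hp.one_lt ((hs p hp).mpr ha) hb h1
  have h5 : Nat.Coprime A Y' := coprime_of_primes fun p hp ha hb =>
    Nat.not_coprime_of_dvd_of_dvd hp.one_lt ((hs p hp).mp ha) hb h2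
  rw [show A * h'' * (B * Y') = (A * B) * (h'' * Y') by ring,
    hf.mul (A * B) (h'' * Y') (Nat.mul_pos hA hB) (Nat.mul_pos hh hY)
      (Nat.Coprime.mul_left (Nat.Coprime.mul_right h1 h5) (Nat.Coprime.mul_right h4 h2)),
    hf.mul A h'' hA hh h1, hf.mul B Y' hB hY h2, hf.mul h'' Y' hh hY h3]
  calc f A * f h'' * (f B * f Y') = (f A * f B) * (f h'' * f Y') := by rw [mul_mul_mul_comm]
    _ = _ := by rw [hx, mul_assoc]

/-- exact divisibility from a congruence -/
theorem exact_of_modEq {A n : ℕ} (hA : 0 < A) (h : n ≡ A [MOD A * A]) :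
    ∃ m, n = A * m ∧ Nat.Coprime A m := by
  have hd : A ∣ n := by
    have h1 : n ≡ A [MOD A] := h.of_dvd (dvd_mul_right _ _)
    exact (Nat.modEq_zero_iff_dvd).1 (h1.trans ((Nat.modEq_zero_iff_dvd).2 dvd_rfl))
  obtain ⟨m, hm⟩ := hd
  refine ⟨m, hm, ?_⟩
  have h2 : A * m ≡ A * 1 [MOD A * A] := by rw [← hm, mul_one]; exact h
  have h3 : m ≡ 1 [MOD A] := Nat.ModEq.mul_left_cancel' hA.ne' h2
  have h4 := h3.gcd_eq
  rw [Nat.coprime_iff_gcd_eq_one, Nat.gcd_comm, h4]
  simp

theorem dvd_pow_self_of_support {B h : ℕ} (hB : 0 < B)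
    (hs : ∀ p : ℕ, p.Prime → p ∣ B → p ∣ h) (hh : 0 < h) : B ∣ h ^ B := by
  rw [← Nat.factorization_le_iff_dvd hB.ne' (pow_ne_zero _ hh.ne')]
  intro p
  rw [Nat.factorization_pow]
  by_cases hp : p.Prime
  · by_cases hd : p ∣ B
    · have h1 : 1 ≤ h.factorization p := (hp.dvd_iff_one_le_factorization hh.ne').1 (hs p hp hd)
      have h2 : B.factorization p < B := Nat.factorization_lt p hB.ne'
      simp only [Finsupp.smul_apply, smul_eq_mul]
      nlinarith
    · rw [Nat.factorization_eq_zero_of_not_dvd hd]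
      exact Nat.zero_le _
  · rw [Nat.factorization_eq_zero_of_not_prime B hp]
    exact Nat.zero_le _

theorem design {f : ℕ → G} (hf : Sg f) (k b B : ℕ) (g : Ln k b → Fin (k + 1) → G)
    (hg : ∀ e l, Gd f (g e l)) :
    ∃ (Q X : ℕ) (h σ : Ln k b → ℕ) (s : Pt k b → ℕ),
      0 < Q ∧ (∀ p : ℕ, p.Prime → p ≤ B → p ∣ Q) ∧ (∀ e, 0 < h e) ∧ (∀ e, h e ∣ Q) ∧
      (∀ e l, s (pt l e) = (l : ℕ) * h e + σ e) ∧
      ∀ Y, Y ≡ X [MOD Q] → Q ≤ Y → ∀ e, h e ∣ Y + σ e ∧
        ∀ l : Fin (k + 1),
          f (h e) * f ((Y + σ e) / h e + l) = g e l * f (Y + s (pt l e)) := by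
  classical
  obtain ⟨B', hB'⟩ : ∃ B', B' = B + b ^ (k + 1) + k + 2 := ⟨_, rfl⟩
  obtain ⟨D, hD⟩ : ∃ D, D = B'.factorial := ⟨_, rfl⟩
  have hDpos : 0 < D := by rw [hD]; exact Nat.factorial_pos _
  have hDp : ∀ p : ℕ, p.Prime → (p ∣ D ↔ p ≤ B') := by
    intro p hp; rw [hD]; exact hp.dvd_factorial
  -- the gadgets
  obtain ⟨A, hA1, hA2⟩ := choose_coprime (Finset.univ : Finset (Ln k b × Fin (k + 1)))
    (fun x w => ∃ z : ℕ, 0 < z ∧ (∀ p : ℕ, p.Prime → (p ∣ w ↔ p ∣ z)) ∧
      f w * f z = g x.1 x.2 * f (w * z)) B' (by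
      intro x _ B1
      obtain ⟨w, z, hw, hz, h1, h2, h3⟩ := hg x.1 x.2 B1
      exact ⟨w, hw, h2, z, hz, h1, h3⟩)
  have hA0 : ∀ x, 0 < A x := fun x => (hA1 x (Finset.mem_univ _)).1
  have hAbig : ∀ x, ∀ p : ℕ, p.Prime → p ∣ A x → B' < p := fun x => (hA1 x (Finset.mem_univ _)).2.1
  have hAZ := fun x => (hA1 x (Finset.mem_univ _)).2.2
  choose Z hZ0 hAZs hAZe using hAZ
  have hAco : ∀ x y, x ≠ y → Nat.Coprime (A x) (A y) := fun x y hxy =>
    hA2 x (Finset.mem_univ _) y (Finset.mem_univ _) hxy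
  have hZco : ∀ x y, x ≠ y → Nat.Coprime (Z x) (Z y) := by
    intro x y hxy
    refine coprime_of_primes fun p hp h1 h2 => ?_
    exact Nat.not_coprime_of_dvd_of_dvd hp.one_lt ((hAZs x p hp).mpr h1) ((hAZs y p hp).mpr h2)
      (hAco x y hxy)
  -- the base point
  obtain ⟨d0, hd0⟩ := exists_crt_add (ι := Option (Ln k b × Fin (k + 1)))
    (fun o => match o with
      | none => D
      | some x => A x * A x)
    (fun o => match o with
      | none => 0
      | some x => D * E x.1)
    (fun o => match o with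
      | none => 1
      | some x => A x)
    (by
      intro o
      match o with
      | none => exact hDpos
      | some x => exact Nat.mul_pos (hA0 x) (hA0 x))
    (by
      have hDq : ∀ x, Nat.Coprime D (A x * A x) := by
        intro x
        refine coprime_of_primes fun p hp h1 h2 => ?_
        have h3 : p ∣ A x := by
          rcases (hp.dvd_mul).mp h2 with h | h <;> exact h
        have h4 := hAbig x p hp h3
        have h5 := (hDp p hp).mp h1
        omega
      intro o o' hne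
      match o, o', hne with
      | none, none, h => exact absurd rfl h
      | none, some x, _ => exact hDq _
      | some x, none, _ => exact (hDq _).symm
      | some x, some y, h =>
        have hc := hAco x y (fun hh => h (by rw [hh]))
        exact Nat.Coprime.mul_left (Nat.Coprime.mul_right hc hc) (Nat.Coprime.mul_right hc hc))
  have hd0D : d0 ≡ 1 [MOD D] := by simpa using hd0 none
  have hd0q : ∀ e l, d0 + D * E e ≡ A (e, l) [MOD A (e, l) * A (e, l)] :=
    fun e l => hd0 (some (e, l))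
  obtain ⟨h, hh⟩ : ∃ h : Ln k b → ℕ, ∀ e, h e = d0 + D * E e := ⟨_, fun _ => rfl⟩
  have hhD : ∀ e, h e ≡ 1 [MOD D] := by
    intro e; rw [hh]
    have : d0 + D * E e ≡ 1 + 0 [MOD D] :=
      Nat.ModEq.add hd0D ((Nat.modEq_zero_iff_dvd).2 (dvd_mul_right _ _))
    simpa using this
  have hhq : ∀ e l, ∃ m, h e = A (e, l) * m ∧ Nat.Coprime (A (e, l)) m := by
    intro e l
    apply exact_of_modEq (hA0 _)
    rw [hh]; exact hd0q e l
  have hqh : ∀ e l, A (e, l) ∣ h e := by
    intro e l
    obtain ⟨m, hm, _⟩ := hhq e l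
    rw [hm]
    exact dvd_mul_right _ _
  have hhpos : ∀ e, 0 < h e := by
    intro e
    rcases Nat.eq_zero_or_pos (h e) with h0 | h0
    · exfalso
      have h1 := hhD e
      rw [h0] at h1
      have h2 : D ∣ 1 := (Nat.modEq_zero_iff_dvd).1 h1.symm
      have h3 : 2 ∣ D := (hDp 2 Nat.prime_two).2 (by omega)
      have := Nat.le_of_dvd one_pos (h3.trans h2)
      omega
    · exact h0
  -- primes dividing h e are large
  have hbig : ∀ e, ∀ p : ℕ, p.Prime → p ∣ h e → B' < p := by
    intro e p hp hpe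
    by_contra hle
    have hle : p ≤ B' := by omega
    have h1 : p ∣ D := (hDp p hp).2 hle
    have h2 : h e ≡ 1 [MOD p] := (hhD e).of_dvd h1
    have h3 : h e ≡ 0 [MOD p] := (Nat.modEq_zero_iff_dvd).2 hpe
    have h4 : p ∣ 1 := (Nat.modEq_zero_iff_dvd).1 (h2.symm.trans h3)
    exact hp.one_lt.ne' (Nat.dvd_one.1 h4)
  -- coprimality
  have hcop : ∀ e e', e ≠ e' → Nat.Coprime (h e) (h e') := by
    intro e e' hne
    apply Nat.Coprime.symm
    apply Nat.coprime_of_dvd
    intro p hp hpe' hpe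
    have hpB := hbig e p hp hpe
    have hEne : E e ≠ E e' := fun hE => hne (E_inj hE)
    have key : ∀ x y : ℕ, x < y → y < b ^ (k + 1) → p ∣ d0 + D * x → p ∣ d0 + D * y → False := by
      intro x y hxy hy h1 h2
      have h3 : p ∣ D * (y - x) := by
        have := Nat.dvd_sub h2 h1
        have e2 : d0 + D * y - (d0 + D * x) = D * (y - x) := by
          rw [Nat.mul_sub]; omega
        rwa [e2] at this
      rcases (hp.dvd_mul).1 h3 with h4 | h4
      · have := (hDp p hp).1 h4; omega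
      · have := Nat.le_of_dvd (by omega) h4
        omega
    rw [hh] at hpe hpe'
    rcases lt_or_gt_of_ne hEne with hlt | hlt
    · exact key _ _ hlt (E_lt e') hpe hpe'
    · exact key _ _ hlt (E_lt e) hpe' hpe
  -- the residues Y_e
  have hY : ∀ e, ∃ y, (∀ l : Fin (k + 1), y + l ≡ Z (e, l) [MOD Z (e, l) * Z (e, l)]) ∧
      ∀ p : ℕ, p.Prime → p ∣ h e → (∀ l, ¬ p ∣ A (e, l)) → y ≡ 1 [MOD p] := by
    intro e
    obtain ⟨P, hP⟩ : ∃ P, P = ∏ p ∈ (h e).primeFactors.filter (fun p => ∀ l, ¬ p ∣ A (e, l)), p :=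
      ⟨_, rfl⟩
    have hPq : ∀ l, Nat.Coprime P (Z (e, l)) := by
      intro l
      rw [hP]
      apply Nat.Coprime.prod_left
      intro p hp
      rw [Finset.mem_filter] at hp
      have hpp := Nat.prime_of_mem_primeFactors hp.1
      rw [Nat.Prime.coprime_iff_not_dvd hpp]
      intro hd
      exact hp.2 l ((hAZs (e, l) p hpp).mpr hd)
    have hPpos : 0 < P := by
      rw [hP]
      apply Finset.prod_pos
      intro p hp
      rw [Finset.mem_filter] at hp
      exact (Nat.prime_of_mem_primeFactors hp.1).pos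
    obtain ⟨y, hy⟩ := exists_crt_add (ι := Option (Fin (k + 1)))
      (fun o => match o with
        | none => P
        | some l => Z (e, l) * Z (e, l))
      (fun o => match o with
        | none => 0
        | some l => (l : ℕ))
      (fun o => match o with
        | none => 1
        | some l => Z (e, l))
      (by
        intro o
        match o with
        | none => exact hPpos
        | some x => exact Nat.mul_pos (hZ0 _) (hZ0 _))
      (by
        intro o o' hne
        match o, o', hne with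
        | none, none, h => exact absurd rfl h
        | none, some x, _ => exact Nat.Coprime.mul_right (hPq x) (hPq x)
        | some x, none, _ => exact (Nat.Coprime.mul_right (hPq x) (hPq x)).symm
        | some x, some y, h =>
          have hc := hZco (e, x) (e, y) (fun hh => h (by rw [(Prod.mk.inj hh).2]))
          exact Nat.Coprime.mul_left (Nat.Coprime.mul_right hc hc) (Nat.Coprime.mul_right hc hc))
    refine ⟨y, fun l => hy (some l), ?_⟩
    intro p hp hpe hpl
    have h1 : p ∣ P := by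
      rw [hP]
      apply Finset.dvd_prod_of_mem
      rw [Finset.mem_filter]
      exact ⟨Nat.mem_primeFactors.2 ⟨hp, hpe, (hhpos e).ne'⟩, hpl⟩
    have h2 : y + 0 ≡ 1 [MOD P] := hy none
    exact (by simpa using h2 : y ≡ 1 [MOD P]).of_dvd h1
  choose Ye hYe1 hYe2 using hY
  obtain ⟨J, hJ⟩ : ∃ J : ℕ, ∀ e l, Z (e, l) * Z (e, l) ≤ J := by
    refine ⟨∑ e : Ln k b, ∑ l : Fin (k + 1), Z (e, l) * Z (e, l), ?_⟩
    intro e l
    calc Z (e, l) * Z (e, l) ≤ ∑ l : Fin (k + 1), Z (e, l) * Z (e, l) :=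
          Finset.single_le_sum (f := fun l => Z (e, l) * Z (e, l)) (fun _ _ => Nat.zero_le _)
            (Finset.mem_univ l)
      _ ≤ _ := Finset.single_le_sum (f := fun e => ∑ l : Fin (k + 1), Z (e, l) * Z (e, l))
            (fun _ _ => Nat.zero_le _) (Finset.mem_univ e)
  have hZh : ∀ e l, Z (e, l) * Z (e, l) ∣ h e ^ J := by
    intro e l
    refine (dvd_pow_self_of_support (Nat.mul_pos (hZ0 _) (hZ0 _)) ?_ (hhpos e)).trans
      (pow_dvd_pow _ (hJ e l))
    intro p hp hd
    have h1 : p ∣ Z (e, l) := by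
      rcases (hp.dvd_mul).mp hd with h | h <;> exact h
    exact ((hAZs (e, l) p hp).mpr h1).trans (hqh e l)
  have hJ1 : ∀ e : Ln k b, 1 ≤ J := by
    intro e
    have h1 := hJ e 0
    have h2 := Nat.mul_pos (hZ0 (e, 0)) (hZ0 (e, 0))
    omega
  obtain ⟨σ, hσ⟩ : ∃ σ : Ln k b → ℕ, ∀ e, σ e = D * Sh e := ⟨_, fun _ => rfl⟩
  obtain ⟨X, hX⟩ := exists_crt_add (fun e : Ln k b => h e ^ (J + 1)) σ (fun e => h e * Ye e)
    (fun e => Nat.pow_pos (hhpos e)) (fun e e' hne => Nat.Coprime.pow _ _ (hcop e e' hne))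
  have hhQ : ∀ e, h e ∣ D * ∏ e, h e ^ (J + 1) := by
    intro e
    apply dvd_mul_of_dvd_right
    exact (dvd_pow_self _ (by omega)).trans (Finset.dvd_prod_of_mem (fun e => h e ^ (J + 1))
      (Finset.mem_univ e))
  have hQpos : 0 < D * ∏ e, h e ^ (J + 1) :=
    Nat.mul_pos hDpos (Finset.prod_pos (fun e _ => Nat.pow_pos (hhpos e)))
  refine ⟨D * ∏ e, h e ^ (J + 1), X, h, σ, fun pt => pt.1 * d0 + D * Po pt.1 pt.2, hQpos, ?_,
    hhpos, hhQ, ?_, ?_⟩
  · intro p hp hpB
    exact dvd_mul_of_dvd_left ((hDp p hp).2 (by omega)) _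
  · intro e l
    show (l : ℕ) * d0 + D * Po l (fun i => e (l.succAbove i)) = (l : ℕ) * h e + σ e
    rw [← key_indep, hh, hσ]
    ring
  · intro Y hYX hQY e
    have hs : ∀ l : Fin (k + 1), (l : ℕ) * d0 + D * Po l (fun i => e (l.succAbove i)) =
        (l : ℕ) * h e + σ e := by
      intro l
      rw [← key_indep, hh, hσ]
      ring
    have hYe : Y + σ e ≡ h e * Ye e [MOD h e * h e ^ J] := by
      have h1 : Y ≡ X [MOD h e ^ (J + 1)] := hYX.of_dvd
        (dvd_mul_of_dvd_right (Finset.dvd_prod_of_mem (fun e => h e ^ (J + 1))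
          (Finset.mem_univ e)) _)
      have h2 := (h1.add_right (σ e)).trans (hX e)
      rwa [pow_succ, mul_comm] at h2
    have hdvd : h e ∣ Y + σ e := by
      have h1 : Y + σ e ≡ h e * Ye e [MOD h e] := hYe.of_dvd (dvd_mul_right _ _)
      exact (Nat.modEq_zero_iff_dvd).1 (h1.trans ((Nat.modEq_zero_iff_dvd).2 (dvd_mul_right _ _)))
    refine ⟨hdvd, ?_⟩
    obtain ⟨y, hy⟩ := hdvd
    have hdiv : (Y + σ e) / h e = y := by
      rw [hy]; exact Nat.mul_div_cancel_left _ (hhpos e)
    have hypos : 0 < y := by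
      rcases Nat.eq_zero_or_pos y with h0 | h0
      · exfalso
        rw [h0, mul_zero] at hy
        omega
      · exact h0
    have hyY : y ≡ Ye e [MOD h e ^ J] := by
      rw [hy] at hYe
      exact Nat.ModEq.mul_left_cancel' (hhpos e).ne' hYe
    intro l
    rw [hdiv]
    have hsl : Y + ((l : ℕ) * d0 + D * Po l (fun i => e (l.succAbove i))) = h e * (y + l) := by
      rw [hs l, mul_add, ← hy]; ring
    show f (h e) * f (y + l) = g e l *
      f (Y + ((l : ℕ) * d0 + D * Po l (fun i => e (l.succAbove i))))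
    rw [hsl]
    -- exact parts
    have hyq : ∀ l' : Fin (k + 1), y + l' ≡ Z (e, l') [MOD Z (e, l') * Z (e, l')] := by
      intro l'
      exact ((hyY.of_dvd (hZh e l')).add_right _).trans (hYe1 e l')
    obtain ⟨Y', hY', hcY'⟩ := exact_of_modEq (hZ0 _) (hyq l)
    obtain ⟨h'', hh'', hch''⟩ := hhq e l
    have hY'pos : 0 < Y' := by
      rcases Nat.eq_zero_or_pos Y' with h0 | h0
      · rw [h0, mul_zero] at hY'; omega
      · exact h0
    have hh''pos : 0 < h'' := by
      rcases Nat.eq_zero_or_pos h'' with h0 | h0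
      · rw [h0, mul_zero] at hh''; have := hhpos e; omega
      · exact h0
    have hcop2 : Nat.Coprime h'' Y' := by
      apply Nat.Coprime.symm
      apply Nat.coprime_of_dvd
      intro p hp hpY' hph''
      have hpA : ¬ p ∣ A (e, l) := by
        intro hd
        exact Nat.not_coprime_of_dvd_of_dvd hp.one_lt hd hph'' hch''
      have hph : p ∣ h e := by rw [hh'']; exact dvd_mul_of_dvd_right hph'' _
      have hpyl : p ∣ y + l := by rw [hY']; exact dvd_mul_of_dvd_right hpY' _
      have hpB := hbig e p hp hph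
      have hl : (l : ℕ) < k + 1 := l.2
      by_cases hc : ∀ l', ¬ p ∣ A (e, l')
      · have h1 : y ≡ 1 [MOD p] := by
          have h2 : p ∣ h e ^ J := hph.trans (dvd_pow_self _ (by have := hJ1 e; omega))
          exact (hyY.of_dvd h2).trans (hYe2 e p hp hph hc)
        have h3 : y + l ≡ 1 + l [MOD p] := h1.add_right _
        have h4 : p ∣ 1 + l :=
          (Nat.modEq_zero_iff_dvd).1 (h3.symm.trans ((Nat.modEq_zero_iff_dvd).2 hpyl))
        have := Nat.le_of_dvd (by omega) h4
        omega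
      · push Not at hc
        obtain ⟨l', hl'⟩ := hc
        have hll' : l ≠ l' := by rintro rfl; exact hpA hl'
        have h1 : p ∣ y + l' := by
          have hpZ : p ∣ Z (e, l') := (hAZs (e, l') p hp).mp hl'
          obtain ⟨Y'', hY'', _⟩ := exact_of_modEq (hZ0 _) (hyq l')
          rw [hY'']
          exact dvd_mul_of_dvd_left hpZ _
        have hl2 : (l' : ℕ) < k + 1 := l'.2
        have hne : (l : ℕ) ≠ l' := fun hh => hll' (Fin.ext hh)
        rcases lt_or_gt_of_ne hne with hlt | hlt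
        · have h2 := Nat.dvd_sub h1 hpyl
          have h3 : y + (l' : ℕ) - (y + l) = l' - l := by omega
          rw [h3] at h2
          have := Nat.le_of_dvd (by omega) h2
          omega
        · have h2 := Nat.dvd_sub hpyl h1
          have h3 : y + (l : ℕ) - (y + l') = l - l' := by omega
          rw [h3] at h2
          have := Nat.le_of_dvd (by omega) h2
          omega
    rw [hY', hh'']
    exact local_f hf (hA0 _) (hZ0 _) hh''pos hY'pos (hAZs (e, l)) (hAZe (e, l)) hch'' hcY' hcop2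

end Pool.Agent.Y973.ED
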