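import Mathlib
import Pool.Agent.H81R2.ED_T3
import Pool.Agent.Y973.ED.Gad

/-! # The equalizer for functions of the prime signature

Adaptation of `Pool.Agent.H81R2.ED_T3`: every fixed part receives the prime signatures of all the
others, on new primes. -/

set_option autoImplicit false

open Finset

namespace Pool.Agent.Y973.ED

open Pool.Agent.H81R2.EDT3 (dvd_div_gcd)

variable {G : Type} [CommGroup G]

/-- given that every prime of `Q'` divides `Q' / gcd Q' y`, the value at `Q' * n + y` factors. -/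
theorem f_form {f : ℕ → G} (hf : Sg f) {Q' y n : ℕ} (hy : 0 < y)
    (hp : ∀ p : ℕ, p.Prime → p ∣ Q' → p ∣ Q' / Nat.gcd Q' y) :
    f (Q' * n + y) = f (Nat.gcd Q' y) * f (Q' / Nat.gcd Q' y * n + y / Nat.gcd Q' y) := by
  have hG : 0 < Nat.gcd Q' y := Nat.gcd_pos_of_pos_right _ hy
  have hcop : Nat.Coprime (Q' / Nat.gcd Q' y) (y / Nat.gcd Q' y) :=
    Nat.coprime_div_gcd_div_gcd hG
  have h1 : Nat.gcd Q' y * (Q' / Nat.gcd Q' y) = Q' := Nat.mul_div_cancel' (Nat.gcd_dvd_left _ _)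
  have h2 : Nat.gcd Q' y * (y / Nat.gcd Q' y) = y := Nat.mul_div_cancel' (Nat.gcd_dvd_right _ _)
  have h3 : Q' * n + y =
      Nat.gcd Q' y * (Q' / Nat.gcd Q' y * n + y / Nat.gcd Q' y) := by
    rw [mul_add, ← mul_assoc, h1, h2]
  have hpos : 0 < Q' / Nat.gcd Q' y * n + y / Nat.gcd Q' y := by
    have : 0 < y / Nat.gcd Q' y := Nat.div_pos (Nat.le_of_dvd hy (Nat.gcd_dvd_right _ _)) hG
    omega
  have h4 : Nat.Coprime (Nat.gcd Q' y) (Q' / Nat.gcd Q' y * n + y / Nat.gcd Q' y) := by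
    rw [Nat.coprime_iff_gcd_eq_one]
    by_contra hne
    obtain ⟨p, hpp, hpd⟩ := Nat.exists_prime_and_dvd hne
    have hpG : p ∣ Nat.gcd Q' y := hpd.trans (Nat.gcd_dvd_left _ _)
    have hpF : p ∣ Q' / Nat.gcd Q' y * n + y / Nat.gcd Q' y := hpd.trans (Nat.gcd_dvd_right _ _)
    have hpa : p ∣ Q' / Nat.gcd Q' y := hp p hpp (hpG.trans (Nat.gcd_dvd_left _ _))
    have hpb : p ∣ y / Nat.gcd Q' y :=
      (Nat.dvd_add_right (hpa.mul_right n)).mp hpF
    have := Nat.dvd_gcd hpa hpb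
    rw [hcop] at this
    exact hpp.one_lt.ne' (Nat.dvd_one.mp this)
  calc f (Q' * n + y)
      = f (Nat.gcd Q' y * (Q' / Nat.gcd Q' y * n + y / Nat.gcd Q' y)) := by rw [← h3]
    _ = _ := hf.mul _ _ hG hpos h4

theorem equalize {f : ℕ → G} (hf : Sg f) (ι : Type) [Fintype ι] (s : ι → ℕ) (Q X : ℕ)
    (hQ : 0 < Q) :
    ∃ (Q' X' : ℕ) (U : G) (a b : ι → ℕ), 0 < Q' ∧ Q ∣ Q' ∧ X' ≡ X [MOD Q] ∧
      (∀ i, 0 < a i) ∧ (∀ i, Nat.Coprime (a i) (b i)) ∧
      (∀ i, ∀ p : ℕ, p.Prime → p ∣ Q → p ∣ a i) ∧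
      ∀ i n, f (Q' * n + X' + s i) = U * f (a i * n + b i) := by
  classical
  -- a bound for the shifts
  obtain ⟨S, hS⟩ : ∃ S : Finset ℕ, S = Finset.univ.image s := ⟨_, rfl⟩
  have hmem : ∀ i, s i ∈ S := fun i => by rw [hS]; exact Finset.mem_image_of_mem _ (Finset.mem_univ i)
  obtain ⟨B, hB⟩ : ∃ B : ℕ, ∀ t ∈ S, t ≤ B := ⟨S.sup id, fun t ht => Finset.le_sup (f := id) ht⟩
  obtain ⟨X1, hX1⟩ : ∃ X1 : ℕ, X1 = X + Q := ⟨_, rfl⟩
  have hX1pos : 0 < X1 := by omega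
  obtain ⟨E, hE⟩ : ∃ E : ℕ, E = X1 + B + 1 := ⟨_, rfl⟩
  obtain ⟨Q2, hQ2⟩ : ∃ Q2 : ℕ, Q2 = Q ^ E := ⟨_, rfl⟩
  have hQ2pos : 0 < Q2 := by rw [hQ2]; positivity
  have hQQ2 : Q ∣ Q2 := by rw [hQ2]; exact dvd_pow_self Q (by omega)
  -- the old fixed parts
  obtain ⟨g1, hg1⟩ : ∃ g1 : ℕ → ℕ, ∀ t, g1 t = Nat.gcd Q2 (X1 + t) := ⟨_, fun _ => rfl⟩
  have hg1pos : ∀ t, 0 < g1 t := fun t => by
    rw [hg1]; exact Nat.gcd_pos_of_pos_left _ hQ2pos
  -- the new parts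
  obtain ⟨N, hN1, hN2⟩ := choose_coprime S
    (fun t w => f w = ∏ t' ∈ S.erase t, f (g1 t')) (Q2 + B)
    (fun t _ B1 => transplant_prod hf (S.erase t) g1 (fun t' _ => hg1pos t') B1)
  have hNpos : ∀ t ∈ S, 0 < N t := fun t ht => (hN1 t ht).1
  have hNbig : ∀ t ∈ S, ∀ p : ℕ, p.Prime → p ∣ N t → Q2 + B < p := fun t ht => (hN1 t ht).2.1
  have hNf : ∀ t ∈ S, f (N t) = ∏ t' ∈ S.erase t, f (g1 t') := fun t ht => (hN1 t ht).2.2
  obtain ⟨m, hm⟩ : ∃ m : ℕ → ℕ, ∀ t, m t = N t * N t := ⟨_, fun _ => rfl⟩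
  have hmpos : ∀ t ∈ S, 0 < m t := fun t ht => by
    rw [hm]; exact Nat.mul_pos (hNpos t ht) (hNpos t ht)
  have hmcop : ∀ t ∈ S, ∀ t' ∈ S, t ≠ t' → Nat.Coprime (m t) (m t') := by
    intro t ht t' ht' h
    rw [hm, hm]
    have hc := hN2 t ht t' ht' h
    exact Nat.Coprime.mul_left (Nat.Coprime.mul_right hc hc) (Nat.Coprime.mul_right hc hc)
  have hmp : ∀ t, ∀ p : ℕ, p.Prime → p ∣ m t → p ∣ N t := by
    intro t p hp h
    rw [hm] at h
    rcases (hp.dvd_mul).mp h with h | h <;> exact h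
  obtain ⟨R, hR⟩ : ∃ R : ℕ, R = ∏ t ∈ S, m t := ⟨_, rfl⟩
  have hRpos : 0 < R := by rw [hR]; exact Finset.prod_pos (fun t ht => hmpos t ht)
  have hNQ2 : ∀ t ∈ S, Nat.Coprime (N t) Q2 := by
    intro t ht
    refine coprime_of_primes fun p hp h1 h2 => ?_
    have := hNbig t ht p hp h1
    have := Nat.le_of_dvd hQ2pos h2
    omega
  have hQ2R : Nat.Coprime Q2 R := by
    rw [hR]
    apply Nat.Coprime.prod_right
    intro t ht
    rw [hm]
    exact Nat.Coprime.mul_right (hNQ2 t ht).symm (hNQ2 t ht).symm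
  -- first Chinese remainder step
  obtain ⟨X3, hX3⟩ : ∃ X3 : ℕ, ∀ t ∈ S, X3 ≡ N t + (m t - 1) * t [MOD m t] := by
    have := Nat.chineseRemainderOfFinset (fun t => N t + (m t - 1) * t) m S
      (fun t ht => (hmpos t ht).ne') (fun t ht t' ht' h => hmcop t ht t' ht' h)
    exact ⟨this.1, this.2⟩
  -- second step
  obtain ⟨X', hX'1, hX'2⟩ : ∃ X' : ℕ, X' ≡ X1 [MOD Q2] ∧ X' ≡ X3 [MOD R] := by
    have := Nat.chineseRemainder hQ2R X1 X3
    exact ⟨this.1, this.2.1, this.2.2⟩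
  -- make it positive: `X'` is congruent to `X1 > 0` modulo `Q2`, we add `Q2 * R`
  obtain ⟨Q', hQ'⟩ : ∃ Q' : ℕ, Q' = Q2 * R := ⟨_, rfl⟩
  have hQ'pos : 0 < Q' := by rw [hQ']; positivity
  obtain ⟨X'', hX''⟩ : ∃ X'' : ℕ, X'' = X' + Q' := ⟨_, rfl⟩
  have hX''1 : X'' ≡ X1 [MOD Q2] := by
    rw [hX'', hQ']
    have h1 : Q2 * R ≡ 0 [MOD Q2] := (Nat.modEq_zero_iff_dvd).2 (dvd_mul_right _ _)
    have := hX'1.add h1
    simpa using this
  have hX''2 : X'' ≡ X3 [MOD R] := by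
    rw [hX'', hQ']
    have h1 : Q2 * R ≡ 0 [MOD R] := (Nat.modEq_zero_iff_dvd).2 (dvd_mul_left _ _)
    have := hX'2.add h1
    simpa using this
  have hmR : ∀ t ∈ S, m t ∣ R := fun t ht => by rw [hR]; exact Finset.dvd_prod_of_mem _ ht
  have hX't : ∀ t ∈ S, X'' + t ≡ N t [MOD N t * N t] := by
    intro t ht
    have h1 : X'' ≡ N t + (m t - 1) * t [MOD m t] :=
      (hX''2.of_dvd (hmR t ht)).trans (hX3 t ht)
    have h2 : X'' + t ≡ N t + (m t - 1) * t + t [MOD m t] := h1.add_right t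
    have h3 : N t + (m t - 1) * t + t = N t + m t * t := by
      have := hmpos t ht
      obtain ⟨k, hk⟩ : ∃ k, m t = k + 1 := ⟨m t - 1, by omega⟩
      rw [hk]
      simp only [Nat.add_sub_cancel]
      ring
    rw [h3] at h2
    rw [← hm]
    refine h2.trans ?_
    have : m t * t ≡ 0 [MOD m t] := (Nat.modEq_zero_iff_dvd.mpr (dvd_mul_right _ _))
    simpa using (Nat.ModEq.refl (N t)).add this
  have hexact : ∀ t ∈ S, ∃ z, X'' + t = N t * z ∧ Nat.Coprime (N t) z := by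
    intro t ht
    have h := hX't t ht
    have hd : N t ∣ X'' + t := by
      have h1 : X'' + t ≡ N t [MOD N t] := h.of_dvd (dvd_mul_right _ _)
      exact (Nat.modEq_zero_iff_dvd).1 (h1.trans ((Nat.modEq_zero_iff_dvd).2 dvd_rfl))
    obtain ⟨z, hz⟩ := hd
    refine ⟨z, hz, ?_⟩
    have h2 : N t * z ≡ N t * 1 [MOD N t * N t] := by rw [← hz, mul_one]; exact h
    have h3 : z ≡ 1 [MOD N t] := Nat.ModEq.mul_left_cancel' (hNpos t ht).ne' h2
    have h4 := h3.gcd_eq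
    rw [Nat.coprime_iff_gcd_eq_one, Nat.gcd_comm, h4]
    simp
  have hXQ2 : ∀ t, X'' + t ≡ X1 + t [MOD Q2] := fun t => hX''1.add_right t
  have hrother : ∀ t ∈ S, ∀ t' ∈ S, t ≠ t' → ∀ p : ℕ, p.Prime → p ∣ N t' → ¬ p ∣ X'' + t := by
    intro t ht t' ht' hne p hp hpN hdvd
    obtain ⟨z, hz, _⟩ := hexact t' ht'
    have h1 : p ∣ X'' + t' := by rw [hz]; exact dvd_mul_of_dvd_left hpN _
    have h2 : (p : ℤ) ∣ (t : ℤ) - t' := by
      have ha : (p : ℤ) ∣ ((X'' + t : ℕ) : ℤ) := by exact_mod_cast hdvd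
      have hb : (p : ℤ) ∣ ((X'' + t' : ℕ) : ℤ) := by exact_mod_cast h1
      have := dvd_sub ha hb
      push_cast at this
      have heq : (X'' : ℤ) + t - (X'' + t') = (t : ℤ) - t' := by ring
      rwa [heq] at this
    have h3 := Int.le_of_dvd (b := |(t : ℤ) - t'|) (abs_pos.mpr (by
      intro h; apply hne; omega)) ((dvd_abs _ _).mpr h2)
    have h4 := hNbig t' ht' p hp hpN
    have h5 := hB t ht
    have h6 := hB t' ht'
    have h7 : |(t : ℤ) - t'| ≤ B := by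
      rw [abs_le]; constructor <;> omega
    omega
  have hXtpos : ∀ t, 0 < X'' + t := by
    intro t
    omega
  -- the gcd with `Q'`
  have hgcd : ∀ t ∈ S, Nat.gcd Q' (X'' + t) = g1 t * N t := by
    intro t ht
    have h1 : Nat.gcd Q' (X'' + t) = Nat.gcd Q2 (X'' + t) * Nat.gcd R (X'' + t) := by
      rw [hQ', Nat.gcd_comm, hQ2R.gcd_mul, Nat.gcd_comm (X'' + t) Q2, Nat.gcd_comm (X'' + t) R]
    have h2 : Nat.gcd Q2 (X'' + t) = g1 t := by
      rw [hg1]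
      rw [Nat.gcd_comm, Nat.gcd_comm Q2]
      exact (hXQ2 t).gcd_eq
    have h3 : Nat.gcd R (X'' + t) = N t := by
      have h31 : R = m t * ∏ t' ∈ S.erase t, m t' := by
        rw [hR]; exact (Finset.mul_prod_erase S m ht).symm
      have h32 : Nat.Coprime (∏ t' ∈ S.erase t, m t') (X'' + t) := by
        apply Nat.Coprime.prod_left
        intro t' ht'
        rw [Finset.mem_erase] at ht'
        refine coprime_of_primes fun p hp hd1 hd2 => ?_
        exact hrother t ht t' ht'.2 (Ne.symm ht'.1) p hp (hmp t' p hp hd1) hd2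
      have h33 : Nat.gcd R (X'' + t) = Nat.gcd (m t) (X'' + t) := by
        rw [h31]
        exact Nat.Coprime.gcd_mul_right_cancel _ h32
      obtain ⟨z, hz, hcz⟩ := hexact t ht
      rw [h33, hz, hm, Nat.gcd_mul_left, hcz.gcd_eq_one, mul_one]
    rw [h1, h2, h3]
  -- every prime of `Q'` divides `Q' / gcd`
  have hQdvd : Q2 ∣ Q' := by rw [hQ']; exact dvd_mul_right _ _
  have hRdvd : R ∣ Q' := by rw [hQ']; exact dvd_mul_left _ _
  have hfull : ∀ t ∈ S, ∀ p : ℕ, p.Prime → p ∣ Q' → p ∣ Q' / Nat.gcd Q' (X'' + t) := by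
    intro t ht p hp hpQ'
    rw [hQ', hp.dvd_mul] at hpQ'
    rcases hpQ' with h | h
    · have hpQ : p ∣ Q := by rw [hQ2] at h; exact hp.dvd_of_dvd_pow h
      have h1 : p ^ E ∣ Q2 := by rw [hQ2]; exact pow_dvd_pow_of_dvd hpQ E
      refine dvd_div_gcd (k := E) hp (h1.trans hQdvd) ?_
      intro h2
      have h3 : p ^ E ∣ X1 + t := (((hXQ2 t).of_dvd h1).dvd_iff dvd_rfl).mp h2
      have h4 := Nat.le_of_dvd (by omega) h3
      have h5 : E < p ^ E := Nat.lt_pow_self hp.one_lt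
      have h6 := hB t ht
      omega
    · -- `Q' / (g1 t * N t)` is divisible by `R / N t`
      rw [hgcd t ht]
      have hg1d : g1 t ∣ Q2 := by rw [hg1]; exact Nat.gcd_dvd_left _ _
      obtain ⟨c, hc⟩ := hg1d
      have h31 : R = m t * ∏ t' ∈ S.erase t, m t' := by
        rw [hR]; exact (Finset.mul_prod_erase S m ht).symm
      have hq : Q' / (g1 t * N t) = c * (N t * ∏ t' ∈ S.erase t, m t') := by
        have : Q' = (g1 t * N t) * (c * (N t * ∏ t' ∈ S.erase t, m t')) := by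
          rw [hQ', h31, hm, hc]; ring
        rw [this]
        exact Nat.mul_div_cancel_left _ (Nat.mul_pos (hg1pos t) (hNpos t ht))
      rw [hq]
      apply dvd_mul_of_dvd_right
      rw [h31, hp.dvd_mul] at h
      rcases h with h | h
      · exact dvd_mul_of_dvd_left (hmp t p hp h) _
      · exact dvd_mul_of_dvd_right h _
  refine ⟨Q', X'', ∏ t ∈ S, f (g1 t), fun i => Q' / Nat.gcd Q' (X'' + s i),
    fun i => (X'' + s i) / Nat.gcd Q' (X'' + s i), hQ'pos, hQQ2.trans hQdvd, ?_, ?_, ?_,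
    ?_, ?_⟩
  · have h1 : X'' ≡ X1 [MOD Q] := hX''1.of_dvd hQQ2
    have h2 : X1 ≡ X [MOD Q] := by
      rw [hX1]
      have : Q ≡ 0 [MOD Q] := (Nat.modEq_zero_iff_dvd.mpr dvd_rfl)
      simpa using (Nat.ModEq.refl X).add this
    exact h1.trans h2
  · intro i
    exact Nat.div_pos (Nat.le_of_dvd hQ'pos (Nat.gcd_dvd_left _ _))
      (Nat.gcd_pos_of_pos_left _ hQ'pos)
  · intro i
    exact Nat.coprime_div_gcd_div_gcd (Nat.gcd_pos_of_pos_left _ hQ'pos)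
  · intro i p hp hpQ
    exact hfull (s i) (hmem i) p hp (hpQ.trans (hQQ2.trans hQdvd))
  · intro i n
    have h := f_form hf (n := n) (hXtpos (s i)) (hfull (s i) (hmem i))
    have hval : f (Nat.gcd Q' (X'' + s i)) = ∏ t ∈ S, f (g1 t) := by
      rw [hgcd (s i) (hmem i), hf.mul (g1 (s i)) (N (s i)) (hg1pos _) (hNpos _ (hmem i)) ?_,
        hNf _ (hmem i)]
      · exact Finset.mul_prod_erase S (fun t => f (g1 t)) (hmem i)
      · refine (Nat.Coprime.coprime_dvd_right ?_ (hNQ2 (s i) (hmem i))).symm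
        rw [hg1]; exact Nat.gcd_dvd_left _ _
    rw [hval] at h
    rw [add_assoc]
    exact h

end Pool.Agent.Y973.ED
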