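import Mathlib
import Pool.Agent.H410R2.EDMain
import Pool.Agent.Y973.ED.Design
import Pool.Agent.Y973.ED.Equal

/-! # Long runs for functions of the prime signature -/

set_option autoImplicit false

open Finset

namespace Pool.Agent.Y973.ED

open Pool.Agent.H410R2.ED (Ln Pt pt om params sieveOmega)

variable {G : Type} [CommGroup G]

theorem f_squarefree {f : ℕ → G} (hf : Sg f) (n : ℕ) (hn0 : 0 < n) :
    Squarefree n → f n = (f (2 ^ 1)) ^ om n := by
  induction n using Nat.recOnPosPrimePosCoprime with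
  | prime_pow p n hp hn =>
    intro hsq
    have h1 : n = 1 := by
      by_contra hne
      have h2 : 2 ≤ n := by omega
      have h3 : p * p ∣ p ^ n := by
        rw [← pow_two]; exact pow_dvd_pow p h2
      exact hp.one_lt.ne' (Nat.isUnit_iff.mp (hsq p h3))
    subst h1
    rw [hf.pp p 2 1 hp Nat.prime_two]
    unfold om
    rw [pow_one p, hp.primeFactors, Finset.card_singleton, pow_one (f (2 ^ 1))]
  | zero => omega
  | one =>
    intro _
    unfold om
    rw [Nat.primeFactors_one, Finset.card_empty, pow_zero, hf.one]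
  | coprime a b ha hb hab iha ihb =>
    intro hsq
    rw [hf.mul a b (by omega) (by omega) hab, iha (by omega) (hsq.of_mul_left),
      ihb (by omega) (hsq.of_mul_right), ← pow_add]
    congr 1
    unfold om
    rw [hab.primeFactors_mul, Finset.card_union_of_disjoint hab.disjoint_primeFactors]

/-- **Long runs for functions of the prime signature.** -/
theorem runs {f : ℕ → G} (hf : Sg f) (hH : ∃ u v : ℕ, 0 < u ∧ 0 < v ∧ f u = f v ∧
    ArithmeticFunction.cardFactors u = ArithmeticFunction.cardFactors v + 1) :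
    ∀ m N : ℕ, ∃ y, N ≤ y ∧ ∀ j < m, f (y + j) = f y := by
  intro m N
  obtain ⟨C, hC0, hS⟩ := sieveOmega
  set k := m + 1 with hk
  obtain ⟨b, T, hb2, hbT, hCT⟩ := params C hC0 k
  obtain ⟨ρ, hρ, hcomb⟩ := Pool.Agent.H446R2.comb k b T hbT
  obtain ⟨γ, hγ⟩ := gd_main hf hH (T + 1)
  obtain ⟨Q, X, h, σ, s, hQ0, hQB, hh0, hhQ, hs, hdes⟩ :=
    design hf k b (2 * Fintype.card (Pt k b)) (fun e l => γ * (f (2 ^ 1)) ^ ρ e l)
      (fun e l => hγ _ (hρ e l).2)
  obtain ⟨Q', X', U, a, c, hQ'0, hQQ', hX', ha0, hac, haQ, heq⟩ := equalize hf (Pt k b) s Q X hQ0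
  have hcard : Fintype.card (Pt k b) = (k + 1) * b ^ k := by
    simp [Pt]
  have hcard2 : 2 ≤ Fintype.card (Pt k b) := by
    rw [hcard]
    have : 1 ≤ b ^ k := Nat.one_le_pow _ _ (by omega)
    nlinarith
  obtain ⟨n, hn, hsq, hsum⟩ := hS (Pt k b) a c hcard2 ha0 hac
    (fun i p hp hpB => haQ i p hp (hQB p hp hpB)) (N + 1)
  have hf2 : 2 * ∑ p, om (a p * n + c p) ≤ T * b ^ k := by
    rw [hcard] at hsum
    have h1 : ((2 * ∑ p, om (a p * n + c p) : ℕ) : ℝ) ≤ ((T * b ^ k : ℕ) : ℝ) := by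
      refine le_trans ?_ hCT
      push_cast at hsum ⊢
      linarith
    exact_mod_cast h1
  obtain ⟨e, he⟩ := hcomb (fun p => om (a p * n + c p)) hf2
  set Y := Q' * n + X' with hY
  have hYX : Y ≡ X [MOD Q] := by
    have h1 : Q' * n ≡ 0 [MOD Q] := (Nat.modEq_zero_iff_dvd).2 (hQQ'.mul_right n)
    have h2 := h1.add hX'
    simpa [hY] using h2
  have hQY : Q ≤ Y := by
    have h1 : Q ≤ Q' := Nat.le_of_dvd hQ'0 hQQ'
    have h2 : Q' * 1 ≤ Q' * n := Nat.mul_le_mul_left _ (by omega)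
    omega
  obtain ⟨hdvd, hl⟩ := hdes Y hYX hQY e
  have hval : ∀ l : Fin (k + 1), f (h e) * f ((Y + σ e) / h e + l)
      = γ * U * (f (2 ^ 1)) ^ (T + 1) := by
    intro l
    have hpos : 0 < a (pt l e) * n + c (pt l e) := by
      have h1 : 0 < a (pt l e) * n := Nat.mul_pos (ha0 _) (by omega)
      omega
    rw [hl l, hY, heq, f_squarefree hf _ hpos (hsq _), ← he l, pow_add]
    simp only [mul_assoc, mul_left_comm]
  refine ⟨(Y + σ e) / h e, ?_, ?_⟩
  · refine le_trans (by omega : N ≤ n) ?_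
    rw [Nat.le_div_iff_mul_le (hh0 e)]
    have h1 : h e ≤ Q' := Nat.le_of_dvd hQ'0 ((hhQ e).trans hQQ')
    calc n * h e ≤ n * Q' := Nat.mul_le_mul_left _ h1
      _ = Q' * n := Nat.mul_comm _ _
      _ ≤ Y + σ e := by omega
  · intro j hj
    have h1 := hval ⟨j, by omega⟩
    have h2 := hval 0
    simp only [Fin.val_zero, add_zero] at h2
    exact mul_left_cancel (h1.trans h2.symm)

end Pool.Agent.Y973.ED
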