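import Mathlib
import Pool.Agent.Y973.ED.Main

/-! # The divisor function, the ternary divisor function and the number of prime factors -/

set_option autoImplicit false

open Finset

namespace Pool.Agent.Y973.ED

/-- the number of ordered factorisations into three factors -/
def d3 (n : ℕ) : ℕ := ∑ e ∈ n.divisors, e.divisors.card

theorem d3_eq (n : ℕ) : d3 n = (ArithmeticFunction.sigma 0 * ArithmeticFunction.zeta) n := by
  rw [ArithmeticFunction.mul_zeta_apply, d3]
  exact Finset.sum_congr rfl fun e _ => (ArithmeticFunction.sigma_zero_apply e).symm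

theorem d3_mul {m n : ℕ} (h : Nat.Coprime m n) : d3 (m * n) = d3 m * d3 n := by
  rw [d3_eq, d3_eq, d3_eq]
  exact (ArithmeticFunction.isMultiplicative_sigma.mul
    ArithmeticFunction.isMultiplicative_zeta).map_mul_of_coprime h

theorem d_pow {p : ℕ} (hp : p.Prime) (a : ℕ) : (p ^ a).divisors.card = a + 1 := by
  rw [Nat.divisors_prime_pow hp a, Finset.card_map, Finset.card_range]

theorem d3_pow {p : ℕ} (hp : p.Prime) (a : ℕ) : d3 (p ^ a) = ∑ i ∈ range (a + 1), (i + 1) := by
  unfold d3
  rw [Nat.sum_divisors_prime_pow hp]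
  exact Finset.sum_congr rfl fun i _ => d_pow hp i

theorem d3_pos {n : ℕ} (hn : 0 < n) : 0 < d3 n := by
  unfold d3
  apply Finset.sum_pos
  · intro e he
    exact Finset.card_pos.mpr ⟨1, Nat.one_mem_divisors.mpr (Nat.pos_of_mem_divisors he).ne'⟩
  · exact ⟨1, Nat.one_mem_divisors.mpr hn.ne'⟩

theorem d_pos {n : ℕ} (hn : 0 < n) : 0 < n.divisors.card :=
  Finset.card_pos.mpr ⟨1, Nat.one_mem_divisors.mpr hn.ne'⟩

/-- a natural number as a unit of `ℚ` -/
def toU (m : ℕ) : ℚˣ := if h : (m : ℚ) ≠ 0 then Units.mk0 (m : ℚ) h else 1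

theorem toU_val {m : ℕ} (hm : 0 < m) : ((toU m : ℚˣ) : ℚ) = m := by
  have h : (m : ℚ) ≠ 0 := by exact_mod_cast hm.ne'
  unfold toU
  rw [dif_pos h]
  rfl

theorem toU_mul {m n : ℕ} (hm : 0 < m) (hn : 0 < n) : toU (m * n) = toU m * toU n := by
  apply Units.ext
  rw [Units.val_mul, toU_val hm, toU_val hn, toU_val (Nat.mul_pos hm hn)]
  push_cast; ring

theorem toU_inj {m n : ℕ} (hm : 0 < m) (hn : 0 < n) (h : toU m = toU n) : m = n := by
  have h1 := congrArg (fun x : ℚˣ => (x : ℚ)) h
  simp only [toU_val hm, toU_val hn] at h1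
  exact_mod_cast h1

/-- the function of the prime signature used below -/
def F (n : ℕ) : ℚˣ × ℚˣ × Multiplicative ℤ :=
  (toU n.divisors.card, toU (d3 n), Multiplicative.ofAdd (n.primeFactors.card : ℤ))

theorem F_sg : Sg F where
  mul m n hm hn h := by
    unfold F
    rw [Nat.Coprime.card_divisors_mul h, d3_mul h, toU_mul (d_pos hm) (d_pos hn),
      toU_mul (d3_pos hm) (d3_pos hn), h.primeFactors_mul,
      Finset.card_union_of_disjoint h.disjoint_primeFactors]
    rfl
  pp p q a hp hq := by
    unfold F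
    rw [d_pow hp, d_pow hq, d3_pow hp, d3_pow hq]
    rcases Nat.eq_zero_or_pos a with rfl | ha
    · simp
    · rw [Nat.primeFactors_prime_pow ha.ne' hp, Nat.primeFactors_prime_pow ha.ne' hq]
      simp

theorem three_runs (m N : ℕ) : ∃ y, N ≤ y ∧ ∀ j < m, F (y + j) = F y := by
  refine runs F_sg ⟨2 ^ 6 * (3 ^ 8 * 5 ^ 19), 2 ^ 5 * (3 ^ 13 * 5 ^ 14), by positivity,
    by positivity, ?_, ?_⟩ m N
  · have c1 : Nat.Coprime (2 ^ 6) (3 ^ 8 * 5 ^ 19) := by norm_num
    have c2 : Nat.Coprime (3 ^ 8) (5 ^ 19) := by norm_num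
    have c3 : Nat.Coprime (2 ^ 5) (3 ^ 13 * 5 ^ 14) := by norm_num
    have c4 : Nat.Coprime (3 ^ 13) (5 ^ 14) := by norm_num
    have p3 : Nat.Prime 3 := Nat.prime_three
    have p5 : Nat.Prime 5 := Nat.prime_five
    have h := F_sg
    rw [h.mul _ _ (by positivity) (by positivity) c1, h.mul _ _ (by positivity) (by positivity) c2,
      h.mul _ _ (by positivity) (by positivity) c3, h.mul _ _ (by positivity) (by positivity) c4]
    have v : ∀ p a : ℕ, p.Prime → 0 < a → F (p ^ a) =
        (toU (a + 1), toU (∑ i ∈ range (a + 1), (i + 1)), Multiplicative.ofAdd (1 : ℤ)) := by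
      intro p a hp ha
      unfold F
      rw [d_pow hp, d3_pow hp, Nat.primeFactors_prime_pow ha.ne' hp]
      simp
    rw [v 2 6 Nat.prime_two (by norm_num), v 3 8 p3 (by norm_num), v 5 19 p5 (by norm_num),
      v 2 5 Nat.prime_two (by norm_num), v 3 13 p3 (by norm_num), v 5 14 p5 (by norm_num)]
    have e1 : toU (6 + 1) * (toU (8 + 1) * toU (19 + 1))
        = toU (5 + 1) * (toU (13 + 1) * toU (14 + 1)) := by
      rw [← toU_mul (by norm_num) (by norm_num), ← toU_mul (by norm_num) (by norm_num),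
        ← toU_mul (by norm_num) (by norm_num), ← toU_mul (by norm_num) (by norm_num)]
    have e2 : toU (∑ i ∈ range (6 + 1), (i + 1)) * (toU (∑ i ∈ range (8 + 1), (i + 1)) *
          toU (∑ i ∈ range (19 + 1), (i + 1)))
        = toU (∑ i ∈ range (5 + 1), (i + 1)) * (toU (∑ i ∈ range (13 + 1), (i + 1)) *
          toU (∑ i ∈ range (14 + 1), (i + 1))) := by
      rw [show ∑ i ∈ range (6 + 1), (i + 1) = 28 by decide,
        show ∑ i ∈ range (8 + 1), (i + 1) = 45 by decide,
        show ∑ i ∈ range (19 + 1), (i + 1) = 210 by decide,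
        show ∑ i ∈ range (5 + 1), (i + 1) = 21 by decide,
        show ∑ i ∈ range (13 + 1), (i + 1) = 105 by decide,
        show ∑ i ∈ range (14 + 1), (i + 1) = 120 by decide,
        ← toU_mul (by norm_num) (by norm_num), ← toU_mul (by norm_num) (by norm_num),
        ← toU_mul (by norm_num) (by norm_num), ← toU_mul (by norm_num) (by norm_num)]
    simp only [Prod.mk_mul_mk]
    rw [e1, e2]
  · have p3 : Nat.Prime 3 := Nat.prime_three
    have p5 : Nat.Prime 5 := Nat.prime_five
    rw [ArithmeticFunction.cardFactors_mul (by norm_num) (by norm_num),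
      ArithmeticFunction.cardFactors_mul (by norm_num) (by norm_num),
      ArithmeticFunction.cardFactors_mul (by norm_num) (by norm_num),
      ArithmeticFunction.cardFactors_mul (by norm_num) (by norm_num),
      ArithmeticFunction.cardFactors_apply_prime_pow Nat.prime_two,
      ArithmeticFunction.cardFactors_apply_prime_pow Nat.prime_two,
      ArithmeticFunction.cardFactors_apply_prime_pow p3,
      ArithmeticFunction.cardFactors_apply_prime_pow p3,
      ArithmeticFunction.cardFactors_apply_prime_pow p5,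
      ArithmeticFunction.cardFactors_apply_prime_pow p5]

end Pool.Agent.Y973.ED
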